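import Mathlib

set_option autoImplicit false

open Filter Topology Set

namespace Pool.Agent.Results.MP_f06e6c_an.Yes

noncomputable def f0 (x₀ y₀ x : ℝ) : ℝ :=
  if x ≤ x₀ then y₀ / x₀ * x else (1 - y₀) / (1 - x₀) * (x - 1) + 1

noncomputable def f1 (x₀ y₀ x : ℝ) : ℝ := 1 - f0 x₀ y₀ (1 - x)

/-- The orbit of `x`: apply any finite word in the two maps. -/
def orbit (x₀ y₀ x : ℝ) : Set ℝ :=
  {y | ∃ w : List Bool, y = w.foldl (fun z i => if i then f1 x₀ y₀ z else f0 x₀ y₀ z) x}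

theorem approx {a b : ℝ} (a0 : 0 < a) (a1 : a < 1) (b1 : 1 < b) {V : Set ℝ} (hV : V ∈ 𝓝 1) :
    ∃ n m : ℕ, a ^ n * b ^ (m + 1) ∈ V := by
  have lb := Real.log_pos b1
  have la := Real.log_neg a0 a1
  have c : Tendsto (fun t => Real.exp (Real.log b * t)) (𝓝 0) (𝓝 1) := by
    have : Continuous fun t => Real.exp (Real.log b * t) := by fun_prop
    simpa using this.tendsto 0
  obtain ⟨d, d0, hd⟩ := Metric.mem_nhds_iff.1 (c hV)
  have x0 : 0 < -Real.log a / Real.log b := div_pos (by linarith) lb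
  obtain ⟨N, hN⟩ := exists_nat_one_div_lt (lt_min d0 x0)
  obtain ⟨k, k0, -, hk⟩ := Real.exists_nat_abs_mul_sub_round_le (-Real.log a / Real.log b)
    N.succ_pos
  set x := -Real.log a / Real.log b with hx
  have h1 : (1 : ℝ) / ((N.succ : ℕ) + 1) ≤ 1 / (N + 1) :=
    one_div_le_one_div_of_le (by positivity) (by push_cast; linarith)
  have h2 := (hk.trans h1).trans_lt hN
  have k1 : (1 : ℝ) ≤ k := by exact_mod_cast k0
  have h3 : 0 < round (k * x) := by
    have := (abs_lt.1 (h2.trans_le (min_le_right _ _))).2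
    have : (0 : ℝ) < round (k * x) := by nlinarith
    exact_mod_cast this
  obtain ⟨m, hm⟩ : ∃ m : ℕ, round (k * x) = (m + 1 : ℕ) := ⟨(round (k * x) - 1).toNat, by omega⟩
  refine ⟨k, m, ?_⟩
  have := hd (show (round (k * x) : ℝ) - k * x ∈ Metric.ball 0 d by
    rw [mem_ball_zero_iff, Real.norm_eq_abs, abs_sub_comm]; exact h2.trans_le (min_le_left _ _))
  rw [mem_preimage, hm] at this
  convert this using 1
  rw [← Real.exp_log (pow_pos a0 k), ← Real.exp_log (pow_pos (one_pos.trans b1) (m + 1)),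
    ← Real.exp_add, Real.log_pow, Real.log_pow, hx]
  congr 1
  push_cast
  field_simp
  ring

theorem core {x y a b : ℝ} (h1 : 1 / 2 ≤ y) (h2 : y < x) (h3 : x < 1) (ha : a * x = y)
    (hb : b * (1 - x) = 1 - y) {A : Set ℝ} (hA : IsClosed A) (o : 1 ∈ A)
    (l0 : ∀ z ∈ A, z ≤ x → a * z ∈ A) (r0 : ∀ z ∈ A, x ≤ z → b * (z - 1) + 1 ∈ A)
    (l1 : ∀ z ∈ A, z ≤ 1 - x → b * z ∈ A) (r1 : ∀ z ∈ A, 1 - x ≤ z → 1 - a * (1 - z) ∈ A)
    {p : ℝ} (hp : p ∈ A) (p0 : 0 < p) (p1 : p < 1) : Ioo 0 1 ⊆ A := by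
  have a0 : 0 < a := by by_contra h; nlinarith
  have a1 : a < 1 := by by_contra h; nlinarith
  have b1 : 1 < b := by by_contra h; nlinarith
  have sm : ∀ e > 0, ∃ z ∈ A, 0 < z ∧ z < e := fun e e0 => by
    by_contra! h
    obtain ⟨m, ⟨m1, m2, m3⟩, hm⟩ := (isCompact_Icc.inter_left hA).exists_isLeast
      ⟨p, hp, h p hp p0, le_rfl⟩
    rcases le_total m x with k | k
    · have := h _ (l0 m m1 k) (by nlinarith)
      have := hm ⟨l0 m m1 k, this, by nlinarith⟩
      nlinarith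
    · have := h _ (r0 m m1 k) (by nlinarith)
      have := hm ⟨r0 m m1 k, this, by nlinarith⟩
      nlinarith
  let L := {d : ℝ | ∃ s, 0 ≤ s ∧ s + d ≤ 1 ∧ ∀ z ∈ A, s < z → z < s + d → False}
  have bd : BddAbove L := ⟨1, fun d ⟨s, k1, k2, _⟩ => by linarith⟩
  intro q ⟨q0, q1⟩
  by_contra hq
  obtain ⟨s, t, ⟨k1, k2⟩, k3⟩ := mem_nhds_iff_exists_Ioo_subset.1
    (inter_mem (hA.isOpen_compl.mem_nhds hq) (Icc_mem_nhds q0 q1))
  have m0 : min t 1 - q ∈ L := ⟨q, q0.le, by simp, fun z k4 k5 k6 =>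
    (k3 ⟨k1.trans k5, by linarith [min_le_left t 1]⟩).1 k4⟩
  have D0 : 0 < sSup L := (sub_pos.2 (lt_min k2 q1)).trans_le (le_csSup bd m0)
  obtain ⟨d, ⟨s, s0, s1, hs⟩, hd⟩ := exists_lt_of_lt_csSup ⟨_, m0⟩
    (show a * sSup L < sSup L by nlinarith)
  have d0 : 0 < d := (mul_pos a0 D0).trans hd
  obtain ⟨z, z1, z2, z3⟩ := sm (s + d / 2) (by linarith)
  obtain ⟨u, ⟨u1, -, u3⟩, hu⟩ := (isCompact_Icc.inter_left hA).exists_isGreatest
    ⟨z, z1, z2.le, z3.le⟩
  have u2 : 0 < u := z2.trans_le (hu ⟨z1, z2.le, z3.le⟩)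
  obtain ⟨v, ⟨v1, v2, v3⟩, hv⟩ := (isCompact_Icc.inter_left hA).exists_isLeast
    ⟨1, o, show s + d / 2 ≤ 1 by linarith, le_rfl⟩
  have u4 : u ≤ s := by by_contra! h; exact hs u u1 h (by linarith)
  have v4 : s + d ≤ v := by by_contra! h; exact hs v v1 (by linarith) h
  have g : ∀ z ∈ A, u < z → z < v → False := fun z k1 k2 k3 => by
    rcases le_total z (s + d / 2) with k | k
    · exact k2.not_ge (hu ⟨k1, by linarith, k⟩)
    · exact k3.not_ge (hv ⟨k1, k, by linarith⟩)
  have nl : (v - u) / a ∉ L := fun h => by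
    have := (div_le_iff₀ a0).1 (le_csSup bd h)
    linarith
  have c1 : y < v := by
    by_contra! h
    have e : u / a + (v - u) / a = v / a := by ring
    have : v / a ≤ x := by rw [div_le_iff₀ a0]; linarith
    refine nl ⟨u / a, by positivity, by linarith, fun z k1 k2 k3 => ?_⟩
    rw [e] at k3
    refine g _ (l0 z k1 (by linarith)) ?_ ?_
    · rw [div_lt_iff₀ a0] at k2; linarith
    · rw [lt_div_iff₀ a0] at k3; linarith
  have c2 : u < 1 - y := by
    by_contra! h
    have e : 1 - (1 - u) / a + (v - u) / a = 1 - (1 - v) / a := by ring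
    have : (1 - u) / a ≤ x := by rw [div_le_iff₀ a0]; linarith
    have : 0 ≤ (1 - v) / a := div_nonneg (by linarith) a0.le
    refine nl ⟨1 - (1 - u) / a, by linarith, by linarith, fun z k1 k2 k3 => ?_⟩
    rw [e] at k3
    refine g _ (r1 z k1 (by linarith)) ?_ ?_
    · have := (lt_div_iff₀ a0).1 (show 1 - z < (1 - u) / a by linarith); linarith
    · have := (div_lt_iff₀ a0).1 (show (1 - v) / a < 1 - z by linarith); linarith
  have c3 : v < 1 - a * y := by
    by_contra! h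
    rcases le_total u (1 - x) with k | k
    · exact g _ (l1 u u1 k) (by nlinarith) (by nlinarith)
    · exact g _ (r1 u u1 k) (by nlinarith) (by nlinarith)
  have c4 : v ≤ x := by
    by_contra! h
    have : 0 < a * y := by nlinarith
    exact g _ (r0 v v1 h.le) (by nlinarith) (by nlinarith)
  have v0 : 0 < v := by linarith
  have i0 : ∀ n : ℕ, a ^ n * v ∈ A := fun n => by
    induction n with
    | zero => simpa
    | succ n ih =>
      have := pow_le_one₀ (n := n) a0.le a1.le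
      rw [pow_succ', mul_assoc]
      exact l0 _ ih (by nlinarith)
  have i1 : ∀ w ∈ A, ∀ m : ℕ, b ^ m * w ≤ 1 - y → b ^ m * w ∈ A := fun w hw m => by
    induction m with
    | zero => simpa using fun _ => hw
    | succ m ih =>
      rw [pow_succ', mul_assoc]
      intro k
      have : b ^ m * w ≤ 1 - x := by by_contra h; nlinarith
      exact l1 _ (ih (by linarith)) this
  have b0 : 0 < b := by linarith
  have c5 : 1 - a * y ≤ b * (1 - y) := by
    rw [← hb, ← ha]
    have : a * x + b * (1 - x) = 1 := by linarith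
    have : 0 ≤ x * (1 - x) * (a - b) ^ 2 := by
      have : 0 < 1 - x := by linarith
      have : 0 < x := by linarith
      positivity
    nlinarith
  obtain ⟨n, m, k⟩ := approx a0 a1 b1 (V := (fun t => t * v) ⁻¹'
      Ioo (b * (1 - x)) (min (b * (1 - y)) (b * (1 - (1 - v) / a))))
    ((continuous_mul_const v).continuousAt.preimage_mem_nhds (Ioo_mem_nhds (by linarith) (by
      refine lt_min (by linarith) ?_
      have : (1 - v) / a = x - (v - (1 - y)) / a + (1 - y - y + y) / a * 0 := by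
        field_simp; linarith
      have : v - (1 - y) < (v - (1 - y)) / a := by rw [lt_div_iff₀ a0]; nlinarith
      nlinarith)))
  obtain ⟨k1, k2⟩ := k
  have e : a ^ n * b ^ (m + 1) * v = b * (b ^ m * (a ^ n * v)) := by ring
  simp only [e, lt_min_iff, mul_lt_mul_iff_right₀ b0] at k1 k2
  refine g _ (r1 _ (i1 _ (i0 n) m k2.1.le) k1.le) (by nlinarith) ?_
  have := (div_lt_iff₀ a0).1 (show (1 - v) / a < 1 - b ^ m * (a ^ n * v) by linarith [k2.2])
  linarith

theorem result (x₀ y₀ : ℝ) (h1 : 1 / 2 < x₀) (h2 : x₀ < 1) (h3 : 1 / 2 ≤ y₀) (h4 : y₀ < x₀) :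
    ∀ x ∈ Ioo (0 : ℝ) 1, Ioo (0 : ℝ) 1 ⊆ closure (orbit x₀ y₀ x) := by
  intro x hx
  have ha : y₀ / x₀ * x₀ = y₀ := div_mul_cancel₀ _ (by linarith)
  have hb : (1 - y₀) / (1 - x₀) * (1 - x₀) = 1 - y₀ := div_mul_cancel₀ _ (by linarith)
  have c0 : Continuous (f0 x₀ y₀) :=
    Continuous.if_le (by fun_prop) (by fun_prop) continuous_id continuous_const
      (by rintro _ rfl; linarith)
  have c1 : Continuous (f1 x₀ y₀) := continuous_const.sub (c0.comp (by fun_prop))
  have hi : ∀ z, x₀ ≤ z → f0 x₀ y₀ z = (1 - y₀) / (1 - x₀) * (z - 1) + 1 := fun z hz => by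
    rw [f0]; split_ifs with h
    · rw [le_antisymm h hz]; linarith
    · rfl
  have m0 : MapsTo (f0 x₀ y₀) (insert 1 (closure (orbit x₀ y₀ x)))
      (insert 1 (closure (orbit x₀ y₀ x))) := by
    rintro z (rfl | h)
    · left; rw [hi 1 h2.le]; ring
    · refine Or.inr (MapsTo.closure ?_ c0 h)
      rintro _ ⟨w, rfl⟩
      exact ⟨w ++ [false], by simp⟩
  have m1 : MapsTo (f1 x₀ y₀) (insert 1 (closure (orbit x₀ y₀ x)))
      (insert 1 (closure (orbit x₀ y₀ x))) := by
    rintro z (rfl | h)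
    · left; rw [f1, f0, if_pos (by linarith)]; ring
    · refine Or.inr (MapsTo.closure ?_ c1 h)
      rintro _ ⟨w, rfl⟩
      exact ⟨w ++ [true], by simp⟩
  have := core (A := insert 1 (closure (orbit x₀ y₀ x))) (p := x) h3 h4 h2 ha hb
    (isClosed_singleton.union isClosed_closure) (mem_insert _ _)
    (fun z h k => by simpa only [f0, if_pos k] using m0 h) (fun z h k => hi z k ▸ m0 h)
    (fun z h k => by
      have := m1 h
      rw [f1, hi _ (by linarith)] at this
      convert this using 1; ring)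
    (fun z h k => by simpa only [f1, f0, if_pos (show 1 - z ≤ x₀ by linarith)] using m1 h)
    (Or.inr (subset_closure ⟨[], rfl⟩)) hx.1 hx.2
  exact fun q hq => (this hq).resolve_left hq.2.ne

end Pool.Agent.Results.MP_f06e6c_an.Yes
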